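import Pool.Agent.Helper95.PN.Stmts

/-! # Row MGS (MP_56acfd_mp): the sum of the localized Morawetz functions (copy 2, helper74) -/

set_option autoImplicit false

namespace Pool.Agent.Helper95.PW

open MeasureTheory Filter

namespace MGS74

theorem pd_smooth (i : Fin 3) (f : R3 → ℝ) (hf : ContDiff ℝ (⊤ : ℕ∞) f) :
    ContDiff ℝ (⊤ : ℕ∞) (pd i f) := by
  have h := (contDiff_infty_iff_fderiv.1 hf).2
  exact h.clm_apply contDiff_const

theorem lap_smooth (f : R3 → ℝ) (hf : ContDiff ℝ (⊤ : ℕ∞) f) :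
    ContDiff ℝ (⊤ : ℕ∞) (lap f) := by
  unfold lap
  exact ContDiff.sum fun i _ => pd_smooth i _ (pd_smooth i f hf)

theorem pd_sum {M : ℕ} (X : Fin M → R3) (i : Fin 3) (f : R3 → ℝ)
    (hf : ContDiff ℝ (⊤ : ℕ∞) f) :
    pd i (fun y => ∑ j, f (y - X j)) = fun y => ∑ j, pd i f (y - X j) := by
  funext y
  unfold pd
  have hd : ∀ j, HasFDerivAt (fun y => f (y - X j)) (fderiv ℝ f (y - X j)) y := by
    intro j
    have h1 : DifferentiableAt ℝ f (y - X j) := (hf.differentiable (by simp)) _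
    have h2 := h1.hasFDerivAt.comp y ((hasFDerivAt_id y).sub_const (X j))
    rwa [ContinuousLinearMap.comp_id] at h2
  have hs : HasFDerivAt (fun y => ∑ j, f (y - X j)) (∑ j, fderiv ℝ f (y - X j)) y :=
    HasFDerivAt.fun_sum (fun j _ => hd j)
  rw [hs.fderiv, sum_apply]

theorem lap_sum {M : ℕ} (X : Fin M → R3) (f : R3 → ℝ) (hf : ContDiff ℝ (⊤ : ℕ∞) f) :
    lap (fun y => ∑ j, f (y - X j)) = fun y => ∑ j, lap f (y - X j) := by
  funext y
  unfold lap
  rw [Finset.sum_comm]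
  apply Finset.sum_congr rfl
  intro i _
  rw [pd_sum X i f hf, pd_sum X i (pd i f) (pd_smooth i f hf)]

theorem pd_zero (d : ℝ) (i : Fin 3) (h : R3 → ℝ) (hh : ContDiff ℝ (⊤ : ℕ∞) h)
    (h0 : ∀ y, d ≤ nr y → h y = 0) (y : R3) (hy : d ≤ nr y) : pd i h y = 0 := by
  have hd : HasFDerivAt h (fderiv ℝ h y) y := ((hh.differentiable (by simp)) y).hasFDerivAt
  have key : ∀ v : R3, (∀ t : ℝ, 0 ≤ t → nr y ≤ nr (y + t • v)) → fderiv ℝ h y v = 0 := by
    intro v hv
    have h1 : HasDerivAt (fun t : ℝ => h (y + t • v)) (fderiv ℝ h y v) 0 := hd.hasLineDerivAt v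
    have h2 : HasDerivWithinAt (fun t : ℝ => h (y + t • v)) (fderiv ℝ h y v) (Set.Ici 0) 0 :=
      h1.hasDerivWithinAt
    have h3 : HasDerivWithinAt (fun t : ℝ => h (y + t • v)) 0 (Set.Ici 0) 0 := by
      apply (hasDerivWithinAt_const (0 : ℝ) (Set.Ici (0 : ℝ)) (0 : ℝ)).congr
      · intro t ht
        exact h0 _ (hy.trans (hv t ht))
      · exact h0 _ (hy.trans (hv 0 le_rfl))
    exact (uniqueDiffWithinAt_Ici (0 : ℝ)).eq_deriv _ h2 h3
  unfold pd
  rcases le_total 0 (y i) with hi | hi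
  · apply key
    intro t ht
    unfold nr
    apply Real.sqrt_le_sqrt
    fin_cases i <;> simp at hi ⊢ <;> nlinarith [mul_nonneg ht hi, sq_nonneg t]
  · have h4 := key (-(Pi.single i 1)) (by
      intro t ht
      unfold nr
      apply Real.sqrt_le_sqrt
      fin_cases i <;> simp at hi ⊢ <;>
        nlinarith [mul_nonneg ht (neg_nonneg.2 hi), sq_nonneg t])
    rw [map_neg] at h4
    linarith

theorem nr_sq (y : R3) : nr y ^ 2 = y 0 ^ 2 + y 1 ^ 2 + y 2 ^ 2 :=
  Real.sq_sqrt (by positivity)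

theorem nr_nonneg (y : R3) : 0 ≤ nr y := Real.sqrt_nonneg _

theorem sep_one {M : ℕ} (X : Fin M → R3) (d : ℝ) (hd : 0 < d) (hX : Sep X d) (y : R3)
    (i j : Fin M) (hi : nr (y - X i) < d) (hj : nr (y - X j) < d) : i = j := by
  by_contra hne
  have h1 := hX i j hne
  have h2 := nr_sq (X i - X j)
  have h3 := nr_sq (y - X i)
  have h4 := nr_sq (y - X j)
  have h5 := nr_nonneg (y - X i)
  have h6 := nr_nonneg (y - X j)
  simp only [Pi.sub_apply] at h2 h3 h4
  have h7 : nr (y - X i) ^ 2 ≤ d ^ 2 := pow_le_pow_left₀ h5 hi.le 2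
  have h8 : nr (y - X j) ^ 2 ≤ d ^ 2 := pow_le_pow_left₀ h6 hj.le 2
  have h9 : (4 * d) ^ 2 ≤ nr (X i - X j) ^ 2 := pow_le_pow_left₀ (by positivity) h1 2
  nlinarith [sq_nonneg (X i 0 + X j 0 - 2 * y 0), sq_nonneg (X i 1 + X j 1 - 2 * y 1),
    sq_nonneg (X i 2 + X j 2 - 2 * y 2), mul_pos hd hd]

theorem cs_sum {M : ℕ} (X : Fin M → R3) (f : R3 → ℝ) (hc : HasCompactSupport f) :
    HasCompactSupport (fun y => ∑ j, f (y - X j)) := by
  have h1 : ∀ j, HasCompactSupport (fun y => f (y - X j)) := by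
    intro j
    exact hc.comp_homeomorph (Homeomorph.subRight (X j))
  have h2 : ∀ s : Finset (Fin M), HasCompactSupport (fun y => ∑ j ∈ s, f (y - X j)) := by
    intro s
    induction s using Finset.induction_on with
    | empty =>
      simp only [Finset.sum_empty]
      exact HasCompactSupport.zero
    | insert a s ha ih =>
      simp only [Finset.sum_insert ha]
      exact (h1 a).add ih
  exact h2 Finset.univ

/-- at most one term is nonzero -/
theorem one_term {M : ℕ} (X : Fin M → R3) (d : ℝ) (hd : 0 < d) (hX : Sep X d) (y : R3)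
    (t : Fin M → ℝ) (h0 : ∀ j, d ≤ nr (y - X j) → t j = 0) (p : ℝ → Prop) (hp0 : p 0)
    (hp : ∀ j, p (t j)) : p (∑ j, t j) := by
  by_cases hex : ∃ j, nr (y - X j) < d
  · obtain ⟨j0, hj0⟩ := hex
    rw [Finset.sum_eq_single j0]
    · exact hp j0
    · intro j _ hj
      apply h0
      by_contra hlt
      exact hj (sep_one X d hd hX y j j0 (not_le.1 hlt) hj0)
    · intro h
      exact absurd (Finset.mem_univ _) h
  · push Not at hex
    rw [Finset.sum_eq_zero (fun j _ => h0 j (hex j))]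
    exact hp0

end MGS74

open MGS74

theorem st_MGS (hMGB : ST_MGB) : ST_MGS := by
  intro d hd
  obtain ⟨A, hA, hF⟩ := hMGB d hd
  refine ⟨A, hA, ?_⟩
  intro M X s hX hs hsd
  have hf := hF s hs hsd
  have hA0 : 0 ≤ A := by linarith
  have e0 : mG X d s = fun y => ∑ j, mg d s (y - X j) := rfl
  have e1 : ∀ i, pd i (mG X d s) = fun y => ∑ j, pd i (mg d s) (y - X j) := fun i => by
    rw [e0]
    exact pd_sum X i _ hf.sm
  have e2 : ∀ i l, pd i (pd l (mG X d s)) = fun y => ∑ j, pd i (pd l (mg d s)) (y - X j) :=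
    fun i l => by
      rw [e1 l]
      exact pd_sum X i _ (pd_smooth l _ hf.sm)
  have e3 : lap (mG X d s) = fun y => ∑ j, lap (mg d s) (y - X j) := by
    rw [e0]
    exact lap_sum X _ hf.sm
  have e4 : lap (lap (mG X d s)) = fun y => ∑ j, lap (lap (mg d s)) (y - X j) := by
    rw [e3]
    exact lap_sum X _ (lap_smooth _ hf.sm)
  refine ⟨?_, ?_, ?_, ?_, ?_, ?_, ?_⟩
  · rw [e0]
    exact ContDiff.sum fun j _ => hf.sm.comp (contDiff_id.sub contDiff_const)
  · rw [e0]
    exact cs_sum X _ hf.cs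
  · intro i y hy
    rw [e1 i]
    exact Finset.sum_eq_zero fun j _ => hf.outd i _ (hy j)
  · intro i y
    rw [e1 i]
    exact one_term X d hd hX y (fun j => pd i (mg d s) (y - X j))
      (fun j hj => hf.outd i _ hj) (fun t => |t| ≤ A) (by rw [abs_zero]; exact hA0)
      (fun j => hf.d1 i _)
  · intro y hy
    rw [e3]
    unfold near1
    rw [Finset.mul_sum]
    refine (Finset.abs_sum_le_sum_abs _ _).trans ?_
    apply Finset.sum_le_sum
    intro j _
    exact hf.lp _ (hy j)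
  · intro y ξ
    have h1 : ∑ i, ∑ l, pd i (pd l (mG X d s)) y * ξ i * ξ l =
        ∑ j, ∑ i, ∑ l, pd i (pd l (mg d s)) (y - X j) * ξ i * ξ l := by
      have h3 : ∀ i, ∑ l, pd i (pd l (mG X d s)) y * ξ i * ξ l =
          ∑ j, ∑ l, pd i (pd l (mg d s)) (y - X j) * ξ i * ξ l := by
        intro i
        have h4 : ∀ l, pd i (pd l (mG X d s)) y * ξ i * ξ l =
            ∑ j, pd i (pd l (mg d s)) (y - X j) * ξ i * ξ l := by
          intro l
          rw [e2 i l]
          show (∑ j, pd i (pd l (mg d s)) (y - X j)) * ξ i * ξ l = _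
          rw [Finset.sum_mul, Finset.sum_mul]
        rw [Finset.sum_congr rfl (fun l _ => h4 l)]
        exact Finset.sum_comm
      rw [Finset.sum_congr rfl (fun i _ => h3 i)]
      exact Finset.sum_comm
    rw [h1]
    refine one_term X d hd hX y
      (fun j => ∑ i, ∑ l, pd i (pd l (mg d s)) (y - X j) * ξ i * ξ l) ?_
      (fun t => -(A * ∑ i, ξ i ^ 2) ≤ t) ?_ (fun j => hf.hs _ ξ)
    · intro j hj
      apply Finset.sum_eq_zero
      intro i _
      apply Finset.sum_eq_zero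
      intro l _
      rw [pd_zero d i _ (pd_smooth l _ hf.sm) (fun z hz => hf.outd l z hz) _ hj]
      ring
    · have h2 : 0 ≤ A * ∑ i, ξ i ^ 2 :=
        mul_nonneg hA0 (Finset.sum_nonneg fun i _ => sq_nonneg _)
      linarith
  · intro y
    rw [e4]
    unfold far1
    rw [Finset.mul_sum, Finset.mul_sum, ← Finset.sum_add_distrib]
    apply Finset.sum_le_sum
    intro j _
    exact hf.bi _

end Pool.Agent.Helper95.PW
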